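import Mathlib
import Pool.Agent.Y826.ZL.Defs
import Pool.Agent.Y870.Z.Fo

/-! Project Y826/Z, job PH: local conditions. -/

open Finset

namespace Pool.Agent.Y826.ZL.Y870

open Pool.Agent.Y870.Z

open Pool.Agent.Y826.Z

open Classical in
/-- complex indicator -/
noncomputable def iC (P : Prop) : ℂ := if P then 1 else 0

theorem iC_ind (P : Prop) : ((ind P : ℝ) : ℂ) = iC P := by
  unfold ind iC
  split_ifs <;> simp

theorem iC_and (P Q : Prop) : iC (P ∧ Q) = iC P * iC Q := by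
  unfold iC
  by_cases hP : P <;> by_cases hQ : Q <;> simp [hP, hQ]

theorem iC_congr {P Q : Prop} (h : P ↔ Q) : iC P = iC Q := by rw [propext h]

theorem iC_forall (s : Finset ℕ) (P : ℕ → Prop) : iC (∀ p ∈ s, P p) = ∏ p ∈ s, iC (P p) := by
  classical
  induction s using Finset.induction_on with
  | empty => simp [iC]
  | insert a s ha ih =>
    rw [Finset.prod_insert ha, ← ih, ← iC_and]
    apply iC_congr
    simp

theorem iC_norm (P : Prop) : ‖iC P‖ ≤ 1 := by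
  unfold iC; split_ifs <;> simp

/-- class of the tuple at a prime -/
noncomputable def cT {K : ℕ} (h : Fin K → ℤ × ℤ) (u : Fin K → ℕ) (p : ℕ) : ZMod p :=
  ∑ j ∈ univ.filter (fun j => p ∣ u j), -(((h j).2 : ℤ) : ZMod p) * (((h j).1 : ℤ) : ZMod p)⁻¹

/-- local indicator -/
noncomputable def loc (p : ℕ) (c : ZMod p) (x : ℤ) : ℂ := iC ((x : ZMod p) = c)

theorem sqf_dvd (n : ℕ) (hn : Squarefree n) (z : ℤ) : (n : ℤ) ∣ z ↔ ∀ p ∈ n.primeFactors, (p : ℤ) ∣ z := by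
  constructor
  · intro h p hp
    exact (Int.natCast_dvd_natCast.2 (Nat.dvd_of_mem_primeFactors hp)).trans h
  · intro h
    rw [← Nat.prod_primeFactors_of_squarefree hn]
    rw [Int.natCast_dvd]
    refine Finset.prod_primes_dvd _ (fun p hp => (Nat.prime_of_mem_primeFactors hp).prime) fun p hp => ?_
    rw [← Int.natCast_dvd]
    exact h p hp

section tuple
variable {K : ℕ} (h : Fin K → ℤ × ℤ) (u : Fin K → ℕ)

theorem Pr_pos_of (hu : Squarefree (Pr u)) : 0 < Pr u := Nat.pos_of_ne_zero hu.ne_zero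

theorem dvd_Pr (j : Fin K) : u j ∣ Pr u := Finset.dvd_prod_of_mem _ (mem_univ j)

theorem uniq (hu : Squarefree (Pr u)) {p : ℕ} (hp : p.Prime) {i j : Fin K} (hi : p ∣ u i) (hj : p ∣ u j) : i = j := by
  by_contra hij
  have h1 : u i * u j ∣ Pr u := by
    have h2 : ∏ x ∈ ({i, j} : Finset (Fin K)), u x ∣ ∏ x, u x :=
      Finset.prod_dvd_prod_of_subset _ _ _ (Finset.subset_univ _)
    rwa [Finset.prod_pair hij] at h2
  have h3 : p * p ∣ Pr u := (mul_dvd_mul hi hj).trans h1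
  exact hp.one_lt.ne' (Nat.isUnit_iff.1 (hu p h3))

theorem cT_eq (hu : Squarefree (Pr u)) {p : ℕ} (hp : p.Prime) {j : Fin K} (hj : p ∣ u j) :
    cT h u p = -(((h j).2 : ℤ) : ZMod p) * (((h j).1 : ℤ) : ZMod p)⁻¹ := by
  unfold cT
  have h1 : univ.filter (fun j => p ∣ u j) = {j} := by
    ext i
    simp only [mem_filter, mem_univ, true_and, mem_singleton]
    exact ⟨fun hi => uniq u hu hp hi hj, fun hi => hi ▸ hj⟩
  rw [h1, Finset.sum_singleton]

theorem exists_j {p : ℕ} (hp : p.Prime) (hd : p ∣ Pr u) : ∃ j, p ∣ u j := by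
  obtain ⟨j, _, hj⟩ := (hp.prime.dvd_finsetProd_iff _).1 hd
  exact ⟨j, hj⟩

theorem sl_ne (W b : ℕ) (H : Hyp h W b) {p : ℕ} (hp : p.Prime) (hpW : ¬ p ∣ W) (j : Fin K) :
    (((h j).1 : ℤ) : ZMod p) ≠ 0 := by
  intro h1
  exact H.h0 p hp hpW j ((ZMod.intCast_zmod_eq_zero_iff_dvd (h j).1 p).1 h1)

theorem ndvd_of {W : ℕ} (hW : (Pr u).Coprime W) {p : ℕ} (hp : p.Prime) (hd : p ∣ Pr u) : ¬ p ∣ W := fun h3 =>
  hp.one_lt.ne' (Nat.eq_one_of_dvd_coprimes hW hd h3)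

theorem Cd_prod (W b : ℕ) (H : Hyp h W b) (hu : Squarefree (Pr u)) (hW : (Pr u).Coprime W) (x : ℤ) :
    iC (∀ j, (u j : ℤ) ∣ (h j).1 * x + (h j).2) = ∏ p ∈ (Pr u).primeFactors, loc p (cT h u p) x := by
  unfold loc
  rw [← iC_forall]
  apply iC_congr
  constructor
  · intro hx p hp
    have hpp := Nat.prime_of_mem_primeFactors hp
    have hpd := Nat.dvd_of_mem_primeFactors hp
    have : Fact p.Prime := ⟨hpp⟩
    obtain ⟨j, hj⟩ := exists_j u hpp hpd
    have ha := sl_ne h W b H hpp (ndvd_of u hW hpp hpd) j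
    rw [cT_eq h u hu hpp hj, eq_mul_inv_iff_mul_eq₀ ha, eq_neg_iff_add_eq_zero]
    have h1 : (p : ℤ) ∣ (h j).1 * x + (h j).2 := (Int.natCast_dvd_natCast.2 hj).trans (hx j)
    have h2 := (ZMod.intCast_zmod_eq_zero_iff_dvd ((h j).1 * x + (h j).2) p).2 h1
    push_cast at h2
    rw [mul_comm]
    exact h2
  · intro hx j
    have hsq : Squarefree (u j) := hu.squarefree_of_dvd (dvd_Pr u j)
    rw [sqf_dvd _ hsq]
    intro p hp
    have hpj := Nat.dvd_of_mem_primeFactors hp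
    have hpp := Nat.prime_of_mem_primeFactors hp
    have : Fact p.Prime := ⟨hpp⟩
    have ha := sl_ne h W b H hpp (ndvd_of u hW hpp (hpj.trans (dvd_Pr u j))) j
    have h1 := hx p (Nat.mem_primeFactors.2 ⟨hpp, hpj.trans (dvd_Pr u j), hu.ne_zero⟩)
    rw [cT_eq h u hu hpp hpj, eq_mul_inv_iff_mul_eq₀ ha, eq_neg_iff_add_eq_zero] at h1
    rw [← ZMod.intCast_zmod_eq_zero_iff_dvd]
    push_cast
    rw [mul_comm]
    exact h1

theorem cT_ne (W b : ℕ) (H : Hyp h W b) (hu : Squarefree (Pr u)) (hW : (Pr u).Coprime W) {p : ℕ} (hp : p.Prime)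
    (hd : p ∣ Pr u) : cT h u p ≠ 0 := by
  obtain ⟨j, hj⟩ := exists_j u hp hd
  have : Fact p.Prime := ⟨hp⟩
  have hpW := ndvd_of u hW hp hd
  rw [cT_eq h u hu hp hj]
  refine mul_ne_zero ?_ (inv_ne_zero (sl_ne h W b H hp hpW j))
  rw [neg_ne_zero]
  intro h1
  exact H.h1 p hp hpW j ((ZMod.intCast_zmod_eq_zero_iff_dvd (h j).2 p).1 h1)

end tuple

theorem res_prod (U : ℕ) (hU : Squarefree U) (x y : ℤ) :
    iC ((x : ZMod U) = (y : ZMod U)) = ∏ p ∈ U.primeFactors, loc p (y : ZMod p) x := by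
  unfold loc
  rw [← iC_forall]
  apply iC_congr
  have h1 : ∀ n : ℕ, (x : ZMod n) = (y : ZMod n) ↔ (n : ℤ) ∣ y - x := fun n =>
    ZMod.intCast_eq_intCast_iff_dvd_sub x y n
  simp only [h1]
  exact sqf_dvd U hU _

theorem loc_sum (p : ℕ) (hp : p.Prime) (A c κ : ZMod p) (hA : A ≠ 0) (n x : ℤ) (hx : (x : ZMod p) = (n : ZMod p) + c) :
    ∑ m ∈ range p, loc p A (m * x) * ec p (κ * ((m : ℕ) : ZMod p)) = lp p (κ * A) c n := by
  classical
  have : Fact p.Prime := ⟨hp⟩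
  have h1 := sum_range_zmod p (fun y => iC (y * (x : ZMod p) = A) * ec p (κ * y))
  have h2 : ∑ m ∈ range p, loc p A (m * x) * ec p (κ * ((m : ℕ) : ZMod p)) =
      ∑ j ∈ range p, iC (((j : ℕ) : ZMod p) * (x : ZMod p) = A) * ec p (κ * ((j : ℕ) : ZMod p)) := by
    refine Finset.sum_congr rfl fun m _ => ?_
    unfold loc
    push_cast
    rfl
  rw [h2, h1, Pool.Agent.Y826.Z.lp]
  by_cases h0 : (n : ZMod p) + c = 0
  · rw [if_pos h0]
    rw [← hx] at h0
    refine Finset.sum_eq_zero fun y _ => ?_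
    rw [h0, mul_zero, iC, if_neg (fun h => hA h.symm), zero_mul]
  · rw [if_neg h0, ← hx]
    rw [← hx] at h0
    rw [Finset.sum_eq_single (A * (x : ZMod p)⁻¹)]
    · rw [mul_assoc A, inv_mul_cancel₀ h0, mul_one, iC, if_pos rfl, one_mul, mul_assoc]
    · intro y _ hy
      rw [iC, if_neg, zero_mul]
      intro h3
      exact hy (by rw [← h3, mul_assoc, mul_inv_cancel₀ h0, mul_one])
    · intro h3
      exact absurd (mem_univ _) h3

theorem loc_sum0 (p : ℕ) (hp : p.Prime) (A : ZMod p) (hA : A ≠ 0) (x : ℤ) :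
    ∑ m ∈ range p, loc p A (m * x) = iC ((x : ZMod p) ≠ 0) := by
  have : Fact p.Prime := ⟨hp⟩
  have h1 := loc_sum p hp A 0 0 hA x x (by simp)
  simp only [zero_mul, ec_zero, mul_one] at h1
  rw [h1, Pool.Agent.Y826.Z.lp, iC]
  simp only [add_zero, zero_mul, ec_zero]
  by_cases h0 : (x : ZMod p) = 0
  · rw [if_pos h0, if_neg (by simpa using h0)]
  · rw [if_neg h0, if_pos h0]

/-- number of solutions of a system of congruences `m x = c_p` mod `p` -/
theorem sys_sum (P : Finset ℕ) (hP : ∀ p ∈ P, p.Prime) (c : (p : ℕ) → ZMod p) (hc : ∀ p ∈ P, c p ≠ 0) (x : ℤ) :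
    ∑ m ∈ range (∏ p ∈ P, p), ∏ p ∈ P, loc p (c p) (m * x) = iC (∀ p ∈ P, (x : ZMod p) ≠ 0) := by
  have h1 := sum_crt_primes P hP 1 one_pos (fun p _ => Nat.coprime_one_left p) (fun _ => 1) (fun _ => rfl)
    (fun p m => loc p (c p) (m * x)) (fun p _ m => by unfold loc; push_cast; simp) 0
  have h2 : ∀ p ∈ P, ∑ m ∈ range p, loc p (c p) ((m : ℤ) * x) *
      ec p (((0 : ℤ) : ZMod p) * ((1 * (∏ p ∈ P, p) / p : ℕ) : ZMod p)⁻¹ * ((m : ℕ) : ZMod p)) =
      iC ((x : ZMod p) ≠ 0) := by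
    intro p hp
    have : NeZero p := ⟨(hP p hp).ne_zero⟩
    rw [← loc_sum0 p (hP p hp) (c p) (hc p hp) x]
    refine Finset.sum_congr rfl fun m _ => ?_
    rw [Int.cast_zero, zero_mul, zero_mul, ec_zero, mul_one]
  rw [Finset.prod_congr rfl h2, ← iC_forall] at h1
  have h3 : NeZero (1 * ∏ p ∈ P, p) := ⟨by
    rw [one_mul]; exact Finset.prod_ne_zero_iff.2 fun p hp => (hP p hp).ne_zero⟩
  simp only [Int.cast_zero, zero_mul, ec_zero, mul_one, one_mul, Finset.range_one, Finset.sum_singleton] at h1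
  rw [← h1]

theorem cop_iff (V : ℕ) (hV : V ≠ 0) (x : ℤ) : IsCoprime x (V : ℤ) ↔ ∀ p ∈ V.primeFactors, (x : ZMod p) ≠ 0 := by
  have e0 : IsCoprime x (V : ℤ) ↔ Nat.Coprime x.natAbs V := by
    rw [Int.isCoprime_iff_gcd_eq_one, Int.gcd_eq_natAbs, Int.natAbs_natCast, Nat.coprime_iff_gcd_eq_one]
  rw [e0]
  constructor
  · intro h p hp h0
    have h1 := (ZMod.intCast_zmod_eq_zero_iff_dvd x p).1 h0
    have h2 : p ∣ x.natAbs := Int.natCast_dvd.1 h1
    exact (Nat.prime_of_mem_primeFactors hp).one_lt.ne' (Nat.eq_one_of_dvd_coprimes h h2 (Nat.dvd_of_mem_primeFactors hp))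
  · intro h
    by_contra hcon
    obtain ⟨p, hp, h1, h2⟩ := Nat.Prime.not_coprime_iff_dvd.1 hcon
    refine h p (Nat.mem_primeFactors.2 ⟨hp, h2, hV⟩) ?_
    rw [ZMod.intCast_zmod_eq_zero_iff_dvd]
    exact Int.natCast_dvd.2 h1

/-- number of `m` with `m x` coprime to the modulus -/
theorem cop_sum (V : ℕ) (x : ℤ) :
    ∑ m ∈ range V, iC (IsCoprime ((m : ℤ) * x) (V : ℤ)) = iC (IsCoprime x (V : ℤ)) * (Nat.totient V : ℂ) := by
  classical
  have h1 : ∀ m : ℕ, iC (IsCoprime ((m : ℤ) * x) (V : ℤ)) = iC (IsCoprime x (V : ℤ)) * iC (V.Coprime m) := by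
    intro m
    rw [← iC_and]
    apply iC_congr
    rw [IsCoprime.mul_left_iff, Nat.isCoprime_iff_coprime, Nat.coprime_comm, and_comm]
  rw [Finset.sum_congr rfl (fun m _ => h1 m), ← Finset.mul_sum]
  congr 1
  rw [Nat.totient]
  unfold iC
  rw [Finset.card_filter]
  push_cast
  refine Finset.sum_congr rfl fun m _ => ?_
  by_cases hm : V.Coprime m <;> simp [hm]

end Pool.Agent.Y826.ZL.Y870
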