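import Mathlib
import Pool.Agent.Y826.ZL.Defs
import Pool.Agent.Y826.ZL.Y870.Lo

/-! Project Y826/Z, job PH: the local factors. -/

open Finset

namespace Pool.Agent.Y826.ZL.Y870

open Pool.Agent.Y870.Z

open Pool.Agent.Y826.Z

/-- coprime residues -/
abbrev Rs (U : ℕ) : Type := {y : ℕ // y ∈ (range U).filter (fun y => U.Coprime y)}

section main
variable {K : ℕ} (h : Fin K → ℤ × ℤ)

/-- classes -/
noncomputable def cl (u : Fin K → ℕ) (o : Option (Rs (Pr u))) (p : ℕ) : ZMod p :=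
  match o with
  | none => cT h u p
  | some y => ((y.1 : ℕ) : ZMod p)

/-- weights -/
noncomputable def wt (U : ℕ) (o : Option (Rs U)) : ℝ :=
  match o with
  | none => 1
  | some _ => -(1 / (Nat.totient U : ℝ))

/-- factors of the second part of the modulus -/
noncomputable def vf (U : ℕ) (o : Option (Rs U)) (v : Fin K → ℕ) (x : ℤ) : ℂ :=
  match o with
  | none => iC (∀ j, (v j : ℤ) ∣ (h j).1 * x + (h j).2)
  | some _ => (1 / (Nat.totient (Pr v) : ℂ)) * iC (IsCoprime x ((Pr v : ℕ) : ℤ))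

theorem wt_sum (U : ℕ) (hU : 0 < U) : ∑ o : Option (Rs U), |wt U o| = 2 := by
  rw [Fintype.sum_option]
  simp only [wt, abs_one, abs_neg, Finset.sum_const, Finset.card_univ, Fintype.card_coe, nsmul_eq_mul]
  have h1 : (0 : ℝ) < (Nat.totient U : ℝ) := by exact_mod_cast Nat.totient_pos.2 hU
  rw [abs_of_pos (by positivity), ← Nat.totient]
  field_simp
  norm_num

/-- the factor `Du` for integers -/
noncomputable def DZ (u v : Fin K → ℕ) (x : ℤ) : ℂ :=
  iC (∀ j, (u j : ℤ) ∣ (h j).1 * x + (h j).2) * iC (∀ j, (v j : ℤ) ∣ (h j).1 * x + (h j).2) -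
    (1 / (Nat.totient (Pr u * Pr v) : ℂ)) * iC (IsCoprime x ((Pr u * Pr v : ℕ) : ℤ))

theorem Du_DZ (u v : Fin K → ℕ) (x : ℕ) : ((Du h u v x : ℝ) : ℂ) = DZ h u v x := by
  unfold Du DZ
  push_cast
  rw [iC_ind, iC_ind, iC_and, iC_congr (P := x.Coprime (Pr u * Pr v)) (Q := IsCoprime (x : ℤ) ((Pr u : ℤ) * (Pr v : ℤ)))]
  · rfl
  · rw [← Nat.cast_mul, Nat.isCoprime_iff_coprime]

theorem DZ_expand (W b : ℕ) (H : Hyp h W b) (u v : Fin K → ℕ) (hu : Squarefree (Pr u)) (hW : (Pr u).Coprime W)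
    (huv : (Pr u).Coprime (Pr v)) (x : ℤ) :
    DZ h u v x = ∑ o : Option (Rs (Pr u)), (wt (Pr u) o : ℂ) *
      (∏ p ∈ (Pr u).primeFactors, loc p (cl h u o p) x) * vf h (Pr u) o v x := by
  rw [Fintype.sum_option]
  have hU : 0 < Pr u := Pr_pos_of u hu
  have h0 : (Nat.totient (Pr u) : ℂ) ≠ 0 := by exact_mod_cast (Nat.totient_pos.2 hU).ne'
  simp only [wt, vf, cl]
  have h1 : ∀ y : Rs (Pr u), ∏ p ∈ (Pr u).primeFactors, loc p ((y.1 : ℕ) : ZMod p) x =
      iC ((x : ZMod (Pr u)) = (y.1 : ℕ)) := by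
    intro y
    have := res_prod (Pr u) hu x (y.1 : ℕ)
    rw [Int.cast_natCast] at this
    rw [this]
    refine Finset.prod_congr rfl fun p _ => ?_
    rw [Int.cast_natCast]
  have h2 : ∑ y : Rs (Pr u), iC ((x : ZMod (Pr u)) = (y.1 : ℕ)) = iC (IsCoprime x ((Pr u : ℕ) : ℤ)) := by
    have : NeZero (Pr u) := ⟨hU.ne'⟩
    rw [Finset.sum_coe_sort ((range (Pr u)).filter (fun y => (Pr u).Coprime y)) (fun y => iC ((x : ZMod (Pr u)) = (y : ℕ)))]
    set n := (x : ZMod (Pr u)).val with hn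
    have hxn : (x : ZMod (Pr u)) = (n : ℕ) := (ZMod.natCast_zmod_val _).symm
    have hcop : IsCoprime x ((Pr u : ℕ) : ℤ) ↔ (Pr u).Coprime n := by
      rw [← Nat.isCoprime_iff_coprime, isCoprime_comm]
      have h3 : ((Pr u : ℕ) : ℤ) ∣ (n : ℤ) - x := by
        rw [← ZMod.intCast_eq_intCast_iff_dvd_sub]
        rw [hxn]; simp
      obtain ⟨c, hc⟩ := h3
      have h4 : (n : ℤ) = x + ((Pr u : ℕ) : ℤ) * c := by linarith
      rw [h4]
      exact (IsCoprime.add_mul_left_right_iff (z := c)).symm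
    by_cases hc : (Pr u).Coprime n
    · rw [Finset.sum_eq_single n]
      · rw [iC_congr (iff_true_intro hxn), iC_congr (iff_true_intro (hcop.2 hc))]
      · intro y hy hyn
        rw [mem_filter, mem_range] at hy
        rw [iC, if_neg]
        intro h5
        apply hyn
        rw [hn, h5, ZMod.val_cast_of_lt hy.1]
      · intro hn2
        exact absurd (mem_filter.2 ⟨mem_range.2 (ZMod.val_lt _), hc⟩) hn2
    · rw [iC_congr (iff_false_intro (fun h8 => hc (hcop.1 h8)))]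
      rw [Finset.sum_eq_zero]
      · simp [iC]
      · intro y hy
        rw [mem_filter, mem_range] at hy
        rw [iC, if_neg]
        intro h5
        apply hc
        rw [hn, h5, ZMod.val_cast_of_lt hy.1]
        exact hy.2
  have h3 : ∑ y : Rs (Pr u), ((-(1 / (Nat.totient (Pr u) : ℝ)) : ℝ) : ℂ) *
      (∏ p ∈ (Pr u).primeFactors, loc p ((y.1 : ℕ) : ZMod p) x) *
      (1 / (Nat.totient (Pr v) : ℂ) * iC (IsCoprime x ((Pr v : ℕ) : ℤ))) =
      -(1 / (Nat.totient (Pr u) : ℂ)) * (1 / (Nat.totient (Pr v) : ℂ)) *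
        (iC (IsCoprime x ((Pr u : ℕ) : ℤ)) * iC (IsCoprime x ((Pr v : ℕ) : ℤ))) := by
    rw [← h2, Finset.sum_mul, Finset.mul_sum]
    refine Finset.sum_congr rfl fun y _ => ?_
    rw [h1]
    push_cast
    ring
  have h4 : iC (IsCoprime x ((Pr u * Pr v : ℕ) : ℤ)) =
      iC (IsCoprime x ((Pr u : ℕ) : ℤ)) * iC (IsCoprime x ((Pr v : ℕ) : ℤ)) := by
    rw [← iC_and]
    apply iC_congr
    rw [Nat.cast_mul]
    exact IsCoprime.mul_right_iff
  rw [h3, ← Cd_prod h u W b H hu hW x, DZ, Nat.totient_mul huv, h4, Nat.cast_mul, Complex.ofReal_one, one_div, one_div,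
    one_div, mul_inv]
  ring

end main

end Pool.Agent.Y826.ZL.Y870
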