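import Mathlib
import Pool.Agent.Y826.ZL.Defs
import Pool.Agent.Y826.ZL.Y870.Mb

/-! Project Y826/Z, job PH: the sum over `m` as a combination of phases. -/

open Finset

namespace Pool.Agent.Y826.ZL.Y870

open Pool.Agent.Y870.Z

open Pool.Agent.Y826.Z

theorem prod_split {R U1 U2 : ℕ} (c1 : R.Coprime U1)
    (c2 : (R * U1).Coprime U2) (g : ℕ → ℂ) :
    ∏ p ∈ (R * U1 * U2).primeFactors, g p =
      (∏ p ∈ R.primeFactors, g p) * (∏ p ∈ U1.primeFactors, g p) * ∏ p ∈ U2.primeFactors, g p := by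
  rw [c2.primeFactors_mul, Finset.prod_union c2.disjoint_primeFactors, c1.primeFactors_mul,
    Finset.prod_union c1.disjoint_primeFactors]

theorem sum_crt_primes' (P : Finset ℕ) (hP : ∀ p ∈ P, p.Prime) (q1 : ℕ) (h1 : 0 < q1)
    (hc : ∀ p ∈ P, Nat.Coprime q1 p) (G : ℤ → ℂ) (hG : ∀ m, G (m + q1) = G m) (f : ℕ → ℤ → ℂ)
    (hf : ∀ p ∈ P, ∀ m, f p (m + p) = f p m) (k : ℤ) (q : ℕ) (hq : q = q1 * ∏ p ∈ P, p) :
    ∑ m ∈ range q, G m * (∏ p ∈ P, f p m) * ec q ((k : ZMod q) * ((m : ℕ) : ZMod q)) =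
    (∑ m ∈ range q1, G m * ec q1 ((k : ZMod q1) * ((∏ p ∈ P, p : ℕ) : ZMod q1)⁻¹ * ((m : ℕ) : ZMod q1))) *
    ∏ p ∈ P, ∑ m ∈ range p, f p m *
      ec p ((k : ZMod p) * ((q / p : ℕ) : ZMod p)⁻¹ * ((m : ℕ) : ZMod p)) := by
  subst hq
  exact sum_crt_primes P hP q1 h1 hc G hG f hf k

section main
variable {K : ℕ} (h : Fin K → ℤ × ℤ)

theorem cl_ne (W b : ℕ) (H : Hyp h W b) (u : Fin K → ℕ) (hu : Squarefree (Pr u)) (hW : (Pr u).Coprime W)
    (o : Option (Rs (Pr u))) {p : ℕ} (hp : p.Prime) (hd : p ∣ Pr u) : cl h u o p ≠ 0 := by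
  match o with
  | none => exact cT_ne h u W b H hu hW hp hd
  | some y =>
    simp only [cl]
    intro h0
    rw [ZMod.natCast_eq_zero_iff] at h0
    have h1 := (mem_filter.1 y.2).2
    exact hp.one_lt.ne' (Nat.eq_one_of_dvd_coprimes h1 hd h0)

/-- the classes at all the primes -/
noncomputable def AA (r u1 u2 : Fin K → ℕ) (o1 : Option (Rs (Pr u1))) (o2 : Option (Rs (Pr u2))) (p : ℕ) : ZMod p :=
  if p ∣ Pr r then cT h r p else if p ∣ Pr u1 then cl h u1 o1 p else cl h u2 o2 p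

open Classical in
/-- the periodic factor -/
noncomputable def ZZ (W b : ℕ) (a r u1 u2 : Fin K → ℕ) (t : ℤ) (o1 : Option (Rs (Pr u1)))
    (o2 : Option (Rs (Pr u2))) (v1 v2 : Fin K → ℕ) (k x : ℤ) : ℂ :=
  if Squarefree (W * Pr a * Pr v1 * Pr v2) then
    ∑ m ∈ range (W * Pr a * Pr v1 * Pr v2), GG h W b a (Pr u1) (Pr u2) t o1 o2 v1 v2 x m *
      ec (W * Pr a * Pr v1 * Pr v2) ((k : ZMod (W * Pr a * Pr v1 * Pr v2)) *
        ((∏ p ∈ (Pr r * Pr u1 * Pr u2).primeFactors, p : ℕ) : ZMod (W * Pr a * Pr v1 * Pr v2))⁻¹ *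
        ((m : ℕ) : ZMod (W * Pr a * Pr v1 * Pr v2)))
  else 0

theorem ZZ_norm (W b : ℕ) (H : Hyp h W b) (a r u1 u2 : Fin K → ℕ) (t : ℤ) (o1 : Option (Rs (Pr u1)))
    (o2 : Option (Rs (Pr u2))) (v1 v2 : Fin K → ℕ) (k x : ℤ) :
    ‖ZZ h W b a r u1 u2 t o1 o2 v1 v2 k x‖ ≤ 1 := by
  unfold ZZ
  split_ifs with hs
  · have : NeZero (W * Pr a * Pr v1 * Pr v2) := ⟨hs.ne_zero⟩
    refine (norm_sum_le _ _).trans (le_trans ?_ (GG_norm h W b H a (Pr u1) (Pr u2) t o1 o2 v1 v2 x hs))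
    refine Finset.sum_le_sum fun m _ => ?_
    rw [norm_mul, ec_norm, mul_one]
  · simp

theorem ZZ_per (W b : ℕ) (a r u1 u2 : Fin K → ℕ) (t : ℤ) (o1 : Option (Rs (Pr u1)))
    (o2 : Option (Rs (Pr u2))) (v1 v2 : Fin K → ℕ) (k x : ℤ) :
    ZZ h W b a r u1 u2 t o1 o2 v1 v2 k (x + ((W * Pr a * Pr v1 * Pr v2 : ℕ) : ℤ)) =
      ZZ h W b a r u1 u2 t o1 o2 v1 v2 k x := by
  unfold ZZ
  simp only [GG_per_x]

/-- the function of `m` -/
noncomputable def FF (W b : ℕ) (a r u1 u2 v1 v2 : Fin K → ℕ) (x1 x2 m : ℤ) : ℂ :=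
  iC (((m * x1 : ℤ) : ZMod W) = (b : ZMod W)) * iC (∀ j, (a j : ℤ) ∣ (h j).1 * (m * x1) + (h j).2) *
    iC (∀ j, (r j : ℤ) ∣ (h j).1 * (m * x1) + (h j).2) * DZ h u1 v1 (m * x1) * DZ h u2 v2 (m * x2)

theorem FF_eq (W b : ℕ) (a r u1 u2 v1 v2 : Fin K → ℕ) (m n1 n2 : ℕ) :
    ((ind (Lc h W b a r (m * n1)) * Du h u1 v1 (m * n1) * Du h u2 v2 (m * n2) : ℝ) : ℂ) =
      FF h W b a r u1 u2 v1 v2 n1 n2 m := by
  push_cast
  rw [Du_DZ, Du_DZ, iC_ind]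
  unfold FF Lc
  rw [iC_and, iC_and, ← mul_assoc]
  push_cast
  congr 1
  congr 1
  congr 1
  congr 1
  · apply iC_congr
    rw [← ZMod.natCast_eq_natCast_iff]
    push_cast
    rfl

theorem FF_per (W b : ℕ) (a r u1 u2 v1 v2 : Fin K → ℕ) (x1 x2 m : ℤ) :
    FF h W b a r u1 u2 v1 v2 x1 x2 (m + ((W * Pr a * Pr r * Pr u1 * Pr u2 * Pr v1 * Pr v2 : ℕ) : ℤ)) =
      FF h W b a r u1 u2 v1 v2 x1 x2 m := by
  unfold FF
  congr 1
  · congr 1
    · congr 1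
      · congr 1
        · exact res_per W b ⟨Pr a * Pr r * Pr u1 * Pr u2 * Pr v1 * Pr v2 * x1, by push_cast; ring⟩
        · exact Cd_per h a ⟨W * Pr r * Pr u1 * Pr u2 * Pr v1 * Pr v2 * x1, by push_cast; ring⟩
      · exact Cd_per h r ⟨W * Pr a * Pr u1 * Pr u2 * Pr v1 * Pr v2 * x1, by push_cast; ring⟩
    · exact DZ_per h u1 v1 ⟨W * Pr a * Pr r * Pr u2 * Pr v2 * x1, by push_cast; ring⟩
  · exact DZ_per h u2 v2 ⟨W * Pr a * Pr r * Pr u1 * Pr v1 * x2, by push_cast; ring⟩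

theorem FF_mean (W b : ℕ) (H : Hyp h W b) (a r u1 u2 v1 v2 : Fin K → ℕ) (x1 x2 : ℤ)
    (hs : Squarefree (W * Pr a * Pr r * Pr u1 * Pr u2 * Pr v1 * Pr v2)) :
    ∑ m ∈ range (W * Pr a * Pr r * Pr u1 * Pr u2 * Pr v1 * Pr v2), FF h W b a r u1 u2 v1 v2 x1 x2 m = 0 := by
  have e0 : W * Pr a * Pr r * Pr u1 * Pr u2 * Pr v1 * Pr v2 =
      (W * (Pr a * Pr r * Pr u2 * Pr v2)) * (Pr u1 * Pr v1) := by ring
  rw [e0] at hs ⊢
  have c0 := Nat.coprime_of_squarefree_mul hs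
  have s1 : Squarefree (Pr u1 * Pr v1) := hs.squarefree_of_dvd (dvd_mul_left _ _)
  have s2 : Squarefree (W * (Pr a * Pr r * Pr u2 * Pr v2)) := hs.squarefree_of_dvd (dvd_mul_right _ _)
  have huv := Nat.coprime_of_squarefree_mul s1
  have hu : Squarefree (Pr u1) := s1.squarefree_of_dvd (dvd_mul_right _ _)
  have hv : Squarefree (Pr v1) := s1.squarefree_of_dvd (dvd_mul_left _ _)
  have cW : (Pr u1 * Pr v1).Coprime W := (Nat.Coprime.coprime_dvd_left (dvd_mul_right _ _) c0).symm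
  have h1 := sum_crt (W * (Pr a * Pr r * Pr u2 * Pr v2)) (Pr u1 * Pr v1) (Nat.pos_of_ne_zero s2.ne_zero)
    (Nat.pos_of_ne_zero s1.ne_zero) c0
    (fun m => iC (((m * x1 : ℤ) : ZMod W) = (b : ZMod W)) * iC (∀ j, (a j : ℤ) ∣ (h j).1 * (m * x1) + (h j).2) *
      iC (∀ j, (r j : ℤ) ∣ (h j).1 * (m * x1) + (h j).2) * DZ h u2 v2 (m * x2))
    (fun m => DZ h u1 v1 (m * x1))
    (fun m => by
      congr 1
      · congr 1
        · congr 1
          · exact res_per W b ⟨Pr a * Pr r * Pr u2 * Pr v2 * x1, by push_cast; ring⟩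
          · exact Cd_per h a ⟨W * Pr r * Pr u2 * Pr v2 * x1, by push_cast; ring⟩
        · exact Cd_per h r ⟨W * Pr a * Pr u2 * Pr v2 * x1, by push_cast; ring⟩
      · exact DZ_per h u2 v2 ⟨W * Pr a * Pr r * x2, by push_cast; ring⟩)
    (fun m => DZ_per h u1 v1 ⟨x1, by push_cast; ring⟩)
  rw [DZ_mean h W b H u1 v1 hu hv huv (Nat.Coprime.coprime_dvd_left (dvd_mul_right _ _) cW)
    (Nat.Coprime.coprime_dvd_left (dvd_mul_left _ _) cW), mul_zero] at h1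
  rw [← h1]
  refine Finset.sum_congr rfl fun m _ => ?_
  unfold FF
  ring

/-- expansion into local conditions -/
theorem FF_expand (W b : ℕ) (H : Hyp h W b) (a r u1 u2 v1 v2 : Fin K → ℕ) (x1 x2 t m : ℤ) (hx : x2 = x1 + t)
    (hs : Squarefree (W * Pr a * Pr r * Pr u1 * Pr u2 * Pr v1 * Pr v2)) :
    FF h W b a r u1 u2 v1 v2 x1 x2 m =
      ∑ ξ : Option (Rs (Pr u1)) × Option (Rs (Pr u2)), ((wt (Pr u1) ξ.1 * wt (Pr u2) ξ.2 : ℝ) : ℂ) *
        (GG h W b a (Pr u1) (Pr u2) t ξ.1 ξ.2 v1 v2 x1 m *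
        ∏ p ∈ (Pr r * Pr u1 * Pr u2).primeFactors,
          loc p (AA h r u1 u2 ξ.1 ξ.2 p) (m * (if p ∣ Pr u2 then x2 else x1))) := by
  have s6 : Squarefree (W * Pr a * Pr r * Pr u1 * Pr u2 * Pr v1) := hs.squarefree_of_dvd (dvd_mul_right _ _)
  have s5 : Squarefree (W * Pr a * Pr r * Pr u1 * Pr u2) := s6.squarefree_of_dvd (dvd_mul_right _ _)
  have s4 : Squarefree (W * Pr a * Pr r * Pr u1) := s5.squarefree_of_dvd (dvd_mul_right _ _)
  have s3 : Squarefree (W * Pr a * Pr r) := s4.squarefree_of_dvd (dvd_mul_right _ _)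
  have sr : Squarefree (Pr r) := s3.squarefree_of_dvd (dvd_mul_left _ _)
  have su1 : Squarefree (Pr u1) := s4.squarefree_of_dvd (dvd_mul_left _ _)
  have su2 : Squarefree (Pr u2) := s5.squarefree_of_dvd (dvd_mul_left _ _)
  have c1 : (Pr r).Coprime (Pr u1) :=
    Nat.Coprime.coprime_dvd_left (dvd_mul_left _ _) (Nat.coprime_of_squarefree_mul s4)
  have c2 : (Pr r * Pr u1).Coprime (Pr u2) := by
    refine Nat.Coprime.coprime_dvd_left ?_ (Nat.coprime_of_squarefree_mul s5)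
    exact ⟨W * Pr a, by ring⟩
  have cv1 : (Pr u1).Coprime (Pr v1) := by
    refine Nat.Coprime.coprime_dvd_left ?_ (Nat.coprime_of_squarefree_mul s6)
    exact ⟨W * Pr a * Pr r * Pr u2, by ring⟩
  have cv2 : (Pr u2).Coprime (Pr v2) := by
    refine Nat.Coprime.coprime_dvd_left ?_ (Nat.coprime_of_squarefree_mul hs)
    exact ⟨W * Pr a * Pr r * Pr u1 * Pr v1, by ring⟩
  unfold FF
  have cr : (Pr r).Coprime W :=
    (Nat.Coprime.coprime_dvd_left (dvd_mul_right _ _) (Nat.coprime_of_squarefree_mul s3)).symm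
  have cu1 : (Pr u1).Coprime W := by
    refine (Nat.Coprime.coprime_dvd_left ?_ (Nat.coprime_of_squarefree_mul s4)).symm
    exact ⟨Pr a * Pr r, by ring⟩
  have cu2 : (Pr u2).Coprime W := by
    refine (Nat.Coprime.coprime_dvd_left ?_ (Nat.coprime_of_squarefree_mul s5)).symm
    exact ⟨Pr a * Pr r * Pr u1, by ring⟩
  rw [DZ_expand h W b H u1 v1 su1 cu1 cv1, DZ_expand h W b H u2 v2 su2 cu2 cv2, Cd_prod h r W b H sr cr,
    Fintype.sum_prod_type]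
  rw [Finset.mul_sum]
  symm
  rw [Finset.sum_comm]
  symm
  refine Finset.sum_congr rfl fun o2 _ => ?_
  rw [Finset.mul_sum, Finset.sum_mul]
  refine Finset.sum_congr rfl fun o1 _ => ?_
  rw [prod_split c1 c2]
  have nd : ∀ {A B : ℕ}, A.Coprime B → ∀ p ∈ A.primeFactors, ¬ p ∣ B := by
    intro A B hAB p hp hpB
    exact (Nat.prime_of_mem_primeFactors hp).one_lt.ne'
      (Nat.eq_one_of_dvd_coprimes hAB (Nat.dvd_of_mem_primeFactors hp) hpB)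
  have c3 : (Pr r).Coprime (Pr u2) := Nat.Coprime.coprime_dvd_left (dvd_mul_right _ _) c2
  have c4 : (Pr u1).Coprime (Pr u2) := Nat.Coprime.coprime_dvd_left (dvd_mul_left _ _) c2
  have e1 : ∏ p ∈ (Pr r).primeFactors, loc p (AA h r u1 u2 o1 o2 p) (m * (if p ∣ Pr u2 then x2 else x1)) =
      ∏ p ∈ (Pr r).primeFactors, loc p (cT h r p) (m * x1) := by
    refine Finset.prod_congr rfl fun p hp => ?_
    rw [AA, if_pos (Nat.dvd_of_mem_primeFactors hp), if_neg (nd c3 p hp)]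
  have e2 : ∏ p ∈ (Pr u1).primeFactors, loc p (AA h r u1 u2 o1 o2 p) (m * (if p ∣ Pr u2 then x2 else x1)) =
      ∏ p ∈ (Pr u1).primeFactors, loc p (cl h u1 o1 p) (m * x1) := by
    refine Finset.prod_congr rfl fun p hp => ?_
    rw [AA, if_neg (nd c1.symm p hp), if_pos (Nat.dvd_of_mem_primeFactors hp), if_neg (nd c4 p hp)]
  have e3 : ∏ p ∈ (Pr u2).primeFactors, loc p (AA h r u1 u2 o1 o2 p) (m * (if p ∣ Pr u2 then x2 else x1)) =
      ∏ p ∈ (Pr u2).primeFactors, loc p (cl h u2 o2 p) (m * x2) := by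
    refine Finset.prod_congr rfl fun p hp => ?_
    rw [AA, if_neg (nd c3.symm p hp), if_neg (nd c4.symm p hp), if_pos (Nat.dvd_of_mem_primeFactors hp)]
  rw [e1, e2, e3]
  unfold GG
  rw [hx]
  push_cast
  ring

end main

theorem phase : S_PH := by
  classical
  intro K h W b H a r u1 u2 l M hs0
  have s4 : Squarefree (W * Pr a * Pr r * Pr u1) := hs0.squarefree_of_dvd (dvd_mul_right _ _)
  have s3 : Squarefree (W * Pr a * Pr r) := s4.squarefree_of_dvd (dvd_mul_right _ _)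
  have sr : Squarefree (Pr r) := s3.squarefree_of_dvd (dvd_mul_left _ _)
  have su1 : Squarefree (Pr u1) := s4.squarefree_of_dvd (dvd_mul_left _ _)
  have su2 : Squarefree (Pr u2) := hs0.squarefree_of_dvd (dvd_mul_left _ _)
  have cr : (Pr r).Coprime W :=
    (Nat.Coprime.coprime_dvd_left (dvd_mul_right _ _) (Nat.coprime_of_squarefree_mul s3)).symm
  have cu1 : (Pr u1).Coprime W := by
    refine (Nat.Coprime.coprime_dvd_left ?_ (Nat.coprime_of_squarefree_mul s4)).symm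
    exact ⟨Pr a * Pr r, by ring⟩
  have cu2 : (Pr u2).Coprime W := by
    refine (Nat.Coprime.coprime_dvd_left ?_ (Nat.coprime_of_squarefree_mul hs0)).symm
    exact ⟨Pr a * Pr r * Pr u1, by ring⟩
  let e : Option (Rs (Pr u1)) × Option (Rs (Pr u2)) ≃ Fin (Fintype.card (Option (Rs (Pr u1)) × Option (Rs (Pr u2)))) :=
    Fintype.equivFin _
  have hAA : ∀ (o1 : Option (Rs (Pr u1))) (o2 : Option (Rs (Pr u2))) (p : ℕ), p.Prime → p ∣ Pr r * Pr u1 * Pr u2 →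
      AA h r u1 u2 o1 o2 p ≠ 0 := by
    intro o1 o2 p hp hd
    unfold AA
    split_ifs with h1 h2
    · exact cT_ne h r W b H sr cr hp h1
    · exact cl_ne h W b H u1 su1 cu1 o1 hp h2
    · refine cl_ne h W b H u2 su2 cu2 o2 hp ?_
      rcases (Nat.Prime.dvd_mul hp).1 hd with h3 | h3
      · rcases (Nat.Prime.dvd_mul hp).1 h3 with h4 | h4
        · exact absurd h4 h1
        · exact absurd h4 h2
      · exact h3
  refine ⟨Fintype.card (Option (Rs (Pr u1)) × Option (Rs (Pr u2))),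
    fun i => wt (Pr u1) (e.symm i).1 * wt (Pr u2) (e.symm i).2,
    fun i => AA h r u1 u2 (e.symm i).1 (e.symm i).2,
    fun i => ZZ h W b a r u1 u2 (l * ((W * Pr a * Pr r : ℕ) : ℤ)) (e.symm i).1 (e.symm i).2, ?_, ?_, ?_, ?_, ?_⟩
  · rw [Equiv.sum_comp e.symm (fun ξ => |wt (Pr u1) ξ.1 * wt (Pr u2) ξ.2|), Fintype.sum_prod_type]
    simp only [abs_mul]
    rw [← Finset.sum_mul_sum, wt_sum _ (Pr_pos_of u1 su1), wt_sum _ (Pr_pos_of u2 su2)]
    norm_num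
  · intro i p hp hd
    exact hAA _ _ p hp hd
  · intro i v1 v2 k x
    exact ZZ_norm h W b H a r u1 u2 _ _ _ v1 v2 k x
  · intro i v1 v2 k x
    exact ZZ_per h W b a r u1 u2 _ _ _ v1 v2 k x
  · intro v1 v2 hs n1 n2 hn
    set t : ℤ := l * ((W * Pr a * Pr r : ℕ) : ℤ) with ht
    have hq0 : 0 < W * Pr a * Pr r * Pr u1 * Pr u2 * Pr v1 * Pr v2 := Nat.pos_of_ne_zero hs.ne_zero
    have : NeZero (W * Pr a * Pr r * Pr u1 * Pr u2 * Pr v1 * Pr v2) := ⟨hq0.ne'⟩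
    have e0 : ((∑ m ∈ Ioc M (2 * M), ind (Lc h W b a r (m * n1)) * Du h u1 v1 (m * n1) * Du h u2 v2 (m * n2) : ℝ) : ℂ) =
        ∑ m ∈ Ioc M (2 * M), FF h W b a r u1 u2 v1 v2 n1 n2 m := by
      rw [Complex.ofReal_sum]
      exact Finset.sum_congr rfl fun m _ => FF_eq h W b a r u1 u2 v1 v2 m n1 n2
    rw [e0, fourier _ M hq0 (FF h W b a r u1 u2 v1 v2 n1 n2) (FF_per h W b a r u1 u2 v1 v2 n1 n2),
      freq0_eq _ hq0, Finset.sum_insert (zero_notin_freq _)]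
    have e1 : ∑ j ∈ range (W * Pr a * Pr r * Pr u1 * Pr u2 * Pr v1 * Pr v2), FF h W b a r u1 u2 v1 v2 n1 n2 j *
        ec (W * Pr a * Pr r * Pr u1 * Pr u2 * Pr v1 * Pr v2)
          ((((0 : ℤ)) : ZMod (W * Pr a * Pr r * Pr u1 * Pr u2 * Pr v1 * Pr v2)) * ((j : ℕ) : ZMod _)) = 0 := by
      rw [← FF_mean h W b H a r u1 u2 v1 v2 n1 n2 hs]
      refine Finset.sum_congr rfl fun j _ => ?_
      rw [Int.cast_zero, zero_mul, ec_zero, mul_one]
    rw [e1, mul_zero, zero_add]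
    have e2 : ∀ k ∈ freq (W * Pr a * Pr r * Pr u1 * Pr u2 * Pr v1 * Pr v2),
        ∑ j ∈ range (W * Pr a * Pr r * Pr u1 * Pr u2 * Pr v1 * Pr v2), FF h W b a r u1 u2 v1 v2 n1 n2 j *
        ec (W * Pr a * Pr r * Pr u1 * Pr u2 * Pr v1 * Pr v2)
          ((k : ZMod (W * Pr a * Pr r * Pr u1 * Pr u2 * Pr v1 * Pr v2)) * ((j : ℕ) : ZMod _)) =
        ∑ ξ : Option (Rs (Pr u1)) × Option (Rs (Pr u2)), ((wt (Pr u1) ξ.1 * wt (Pr u2) ξ.2 : ℝ) : ℂ) *
          (ZZ h W b a r u1 u2 t ξ.1 ξ.2 v1 v2 k n1 *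
          PH (Pr r * Pr u1 * Pr u2).primeFactors
          (fun p => (k : ZMod p) * ((W * Pr a * Pr r * Pr u1 * Pr u2 * Pr v1 * Pr v2 / p : ℕ) : ZMod p)⁻¹ *
            AA h r u1 u2 ξ.1 ξ.2 p)
          (fun p => if p ∣ Pr u2 then (t : ZMod p) else 0) n1) := by
      intro k _
      have e3 : ∀ j : ℕ, FF h W b a r u1 u2 v1 v2 n1 n2 j *
        ec (W * Pr a * Pr r * Pr u1 * Pr u2 * Pr v1 * Pr v2)
          ((k : ZMod (W * Pr a * Pr r * Pr u1 * Pr u2 * Pr v1 * Pr v2)) * ((j : ℕ) : ZMod _)) =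
          ∑ ξ : Option (Rs (Pr u1)) × Option (Rs (Pr u2)), ((wt (Pr u1) ξ.1 * wt (Pr u2) ξ.2 : ℝ) : ℂ) *
        (GG h W b a (Pr u1) (Pr u2) t ξ.1 ξ.2 v1 v2 n1 j *
        (∏ p ∈ (Pr r * Pr u1 * Pr u2).primeFactors,
          loc p (AA h r u1 u2 ξ.1 ξ.2 p) (j * (if p ∣ Pr u2 then (n2 : ℤ) else (n1 : ℤ)))) *
          ec (W * Pr a * Pr r * Pr u1 * Pr u2 * Pr v1 * Pr v2)
          ((k : ZMod (W * Pr a * Pr r * Pr u1 * Pr u2 * Pr v1 * Pr v2)) * ((j : ℕ) : ZMod _))) := by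
        intro j
        rw [FF_expand h W b H a r u1 u2 v1 v2 n1 n2 t j hn hs, Finset.sum_mul]
        refine Finset.sum_congr rfl fun ξ _ => ?_
        ring
      rw [Finset.sum_congr rfl (fun j _ => e3 j), Finset.sum_comm]
      refine Finset.sum_congr rfl fun ξ _ => ?_
      rw [← Finset.mul_sum]
      congr 1
      have hq1s : Squarefree (W * Pr a * Pr v1 * Pr v2) :=
        hs.squarefree_of_dvd ⟨Pr r * Pr u1 * Pr u2, by ring⟩
      have hd2s : Squarefree (Pr r * Pr u1 * Pr u2) :=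
        hs.squarefree_of_dvd ⟨W * Pr a * Pr v1 * Pr v2, by ring⟩
      have hqq : W * Pr a * Pr r * Pr u1 * Pr u2 * Pr v1 * Pr v2 =
          (W * Pr a * Pr v1 * Pr v2) * ∏ p ∈ (Pr r * Pr u1 * Pr u2).primeFactors, p := by
        rw [prod_pf hd2s]; ring
      have hcc : ∀ p ∈ (Pr r * Pr u1 * Pr u2).primeFactors, Nat.Coprime (W * Pr a * Pr v1 * Pr v2) p := by
        intro p hp
        have h1 : Squarefree ((W * Pr a * Pr v1 * Pr v2) * (Pr r * Pr u1 * Pr u2)) :=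
          hs.squarefree_of_dvd ⟨1, by ring⟩
        exact Nat.Coprime.coprime_dvd_right (Nat.dvd_of_mem_primeFactors hp) (Nat.coprime_of_squarefree_mul h1)
      have h3 := sum_crt_primes' (Pr r * Pr u1 * Pr u2).primeFactors
        (fun p hp => Nat.prime_of_mem_primeFactors hp) (W * Pr a * Pr v1 * Pr v2)
        (Nat.pos_of_ne_zero hq1s.ne_zero) hcc (GG h W b a (Pr u1) (Pr u2) t ξ.1 ξ.2 v1 v2 n1)
        (fun m => GG_per_m h W b a (Pr u1) (Pr u2) t ξ.1 ξ.2 v1 v2 n1 m)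
        (fun p m => loc p (AA h r u1 u2 ξ.1 ξ.2 p) (m * (if p ∣ Pr u2 then (n2 : ℤ) else (n1 : ℤ))))
        (fun p _ m => loc_per p _ ⟨(if p ∣ Pr u2 then (n2 : ℤ) else (n1 : ℤ)), by ring⟩) k _ hqq
      rw [h3]
      congr 1
      · rw [ZZ, if_pos hq1s]
      · unfold PH
        refine Finset.prod_congr rfl fun p hp => ?_
        have hpp := Nat.prime_of_mem_primeFactors hp
        refine loc_sum p hpp (AA h r u1 u2 ξ.1 ξ.2 p) (if p ∣ Pr u2 then (t : ZMod p) else 0) _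
          (hAA _ _ p hpp (Nat.dvd_of_mem_primeFactors hp)) n1 _ ?_
        split_ifs
        · rw [hn]; push_cast; rfl
        · simp
    have e4 : ∑ k ∈ freq (W * Pr a * Pr r * Pr u1 * Pr u2 * Pr v1 * Pr v2),
        Ih M (W * Pr a * Pr r * Pr u1 * Pr u2 * Pr v1 * Pr v2) k *
        ∑ j ∈ range (W * Pr a * Pr r * Pr u1 * Pr u2 * Pr v1 * Pr v2), FF h W b a r u1 u2 v1 v2 n1 n2 j *
        ec (W * Pr a * Pr r * Pr u1 * Pr u2 * Pr v1 * Pr v2)
          ((k : ZMod (W * Pr a * Pr r * Pr u1 * Pr u2 * Pr v1 * Pr v2)) * ((j : ℕ) : ZMod _)) =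
        ∑ ξ : Option (Rs (Pr u1)) × Option (Rs (Pr u2)), ((wt (Pr u1) ξ.1 * wt (Pr u2) ξ.2 : ℝ) : ℂ) *
          ∑ k ∈ freq (W * Pr a * Pr r * Pr u1 * Pr u2 * Pr v1 * Pr v2),
          Ih M (W * Pr a * Pr r * Pr u1 * Pr u2 * Pr v1 * Pr v2) k *
          ZZ h W b a r u1 u2 t ξ.1 ξ.2 v1 v2 k n1 *
          PH (Pr r * Pr u1 * Pr u2).primeFactors
          (fun p => (k : ZMod p) * ((W * Pr a * Pr r * Pr u1 * Pr u2 * Pr v1 * Pr v2 / p : ℕ) : ZMod p)⁻¹ *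
            AA h r u1 u2 ξ.1 ξ.2 p)
          (fun p => if p ∣ Pr u2 then (t : ZMod p) else 0) n1 := by
      rw [Finset.sum_congr rfl (fun k hk => by rw [e2 k hk, Finset.mul_sum])]
      rw [Finset.sum_comm]
      refine Finset.sum_congr rfl fun ξ _ => ?_
      rw [Finset.mul_sum]
      refine Finset.sum_congr rfl fun k _ => ?_
      ring
    rw [e4]
    rw [← Equiv.sum_comp e.symm]

end Pool.Agent.Y826.ZL.Y870
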